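import Pool.Agent.E8helper2.PS.Stm

/-!
# Project PS (helper2), MP_64ccd3_an: piece S_GAPI
-/

set_option autoImplicit false
open MeasureTheory Filter Topology

namespace Pool.Agent.E8helper8.PS

open Pool.Agent.E8helper2.PS

lemma cont_phi (h3 : S_CONT) {c : ℕ → ℂ} {M : ℝ} (hc : ∀ n, ‖c n‖ ≤ M) {t : ℝ} (ht : 0 < t) :
    Continuous fun θ : ℝ => Phi c ((θ : ℂ) + t * Complex.I) := by
  have h := ((h3 c M hc).1).continuousOn
  have h1 : Continuous fun θ : ℝ => ((θ : ℂ) + t * Complex.I) := by fun_prop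
  refine h.comp_continuous h1 fun θ => ?_
  show 0 < ((θ : ℂ) + t * Complex.I).im
  simpa using ht

lemma one (h1 : S_SEC) (h2 : S_BOX) {c : ℕ → ℂ} {M κ κ' t : ℝ} (hM : 0 ≤ M)
    (hc : ∀ n, ‖c n‖ ≤ M) (w : Win c M κ) (w' : Win c M κ')
    (hk : κ < κ') (ht : 0 < t) (htα : t ≤ κ' - κ) :
    ‖∫ θ in κ..κ', Phi c ((θ : ℂ) + t * Complex.I)‖ ≤ 6 * M * (κ' - κ) := by
  have hα : 0 < κ' - κ := by linarith
  have hMα : 0 ≤ M * (κ' - κ) := mul_nonneg hM hα.le
  have key : ∀ s : ℝ, 0 < s → (κ' - κ ≤ s ∨ 1 / 2 ≤ s) →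
      ‖∫ θ in κ..κ', Phi c ((θ : ℂ) + s * Complex.I)‖ ≤ 4 * M * (κ' - κ) := by
    intro s hs hor
    have h := intervalIntegral.norm_integral_le_of_norm_le_const (a := κ) (b := κ') (C := 4 * M)
      (f := fun θ : ℝ => Phi c ((θ : ℂ) + s * Complex.I)) (fun θ hθ => by
        rw [Set.uIoc_of_le hk.le] at hθ
        exact h1 c M κ κ' hc w w' hk θ s hθ.1.le hθ.2 hor hs)
    rwa [abs_of_pos hα] at h
  rcases le_total (1 / 2) t with h | h
  · refine (key t ht (Or.inr h)).trans ?_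
    linarith
  · obtain ⟨t', ht', hα', hor⟩ : ∃ t' : ℝ, t ≤ t' ∧ t' ≤ κ' - κ ∧ (κ' - κ ≤ t' ∨ 1 / 2 ≤ t') := by
      rcases le_total (κ' - κ) (1 / 2) with h5 | h5
      · exact ⟨κ' - κ, htα, le_rfl, Or.inl le_rfl⟩
      · exact ⟨1 / 2, h, h5, Or.inr le_rfl⟩
    have h4 := h2 c M κ κ' t t' hc w w' hk ht ht'
    have h5 := key t' (ht.trans_le ht') hor
    have h6 := norm_add_le ((∫ θ in κ..κ', Phi c ((θ : ℂ) + t * Complex.I)) -
      ∫ θ in κ..κ', Phi c ((θ : ℂ) + t' * Complex.I))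
      (∫ θ in κ..κ', Phi c ((θ : ℂ) + t' * Complex.I))
    rw [sub_add_cancel] at h6
    have h7 : M * (t' - t) ≤ M * (κ' - κ) := mul_le_mul_of_nonneg_left (by linarith) hM
    linarith

theorem t_GAPI (h0 : S_WIN) (h1 : S_SEC) (h2 : S_BOX) (h3 : S_CONT) : S_GAPI := by
  intro a M S hyp κ hκ κ' hκ' hk N t ht
  have hM : 0 ≤ M := (norm_nonneg _).trans (hyp.coef 0)
  have c1 : ∀ n, ‖sh a N n‖ ≤ M := fun n => hyp.coef _
  have c2 : ∀ n, ‖rv a N n‖ ≤ M := by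
    intro n
    unfold rv
    split_ifs
    · exact hyp.coef _
    · rw [norm_zero]; exact hM
  have w1 := (h0 a M κ (hyp.win κ hκ) N).1
  have w1' := (h0 a M κ' (hyp.win κ' hκ') N).1
  have w2 := (h0 a M κ (hyp.win κ hκ) N).2
  have w2' := (h0 a M κ' (hyp.win κ' hκ') N).2
  have hk2 : -κ' < -κ := by linarith
  have e : ∀ θ : ℝ, (-(θ : ℂ)) = ((-θ : ℝ) : ℂ) := fun θ => by push_cast; ring
  refine ⟨fun hα => ?_, fun hα θ hθ => ?_⟩
  · have i1 := one h1 h2 hM c1 w1 w1' hk ht hα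
    have i2 := one h1 h2 hM c2 w2' w2 hk2 ht (by linarith)
    have e1 : ∫ θ in κ..κ', Dl a N t θ =
        (∫ θ in κ..κ', Phi (sh a N) ((θ : ℂ) + t * Complex.I)) +
          ∫ θ in κ..κ', Phi (rv a N) (-(θ : ℂ) + t * Complex.I) := by
      unfold Dl
      apply intervalIntegral.integral_add
      · exact (cont_phi h3 c1 ht).intervalIntegrable _ _
      · have h5 := (cont_phi h3 c2 ht).comp (continuous_neg (G := ℝ))
        refine Continuous.intervalIntegrable ?_ _ _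
        refine h5.congr fun θ => ?_
        show Phi (rv a N) (((-θ : ℝ) : ℂ) + t * Complex.I) = _
        rw [e]
    have e2 : ∫ θ in κ..κ', Phi (rv a N) (-(θ : ℂ) + t * Complex.I) =
        ∫ θ in (-κ')..(-κ), Phi (rv a N) ((θ : ℂ) + t * Complex.I) := by
      rw [← intervalIntegral.integral_comp_neg
        (fun θ : ℝ => Phi (rv a N) ((θ : ℂ) + t * Complex.I))]
      refine intervalIntegral.integral_congr fun θ _ => ?_
      simp only [e]
    rw [e1, e2]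
    refine (norm_add_le _ _).trans ?_
    have e3 : -κ - -κ' = κ' - κ := by ring
    rw [e3] at i2
    linarith
  · unfold Dl
    refine (norm_add_le _ _).trans ?_
    have i1 := h1 (sh a N) M κ κ' c1 w1 w1' hk θ t hθ.1 hθ.2 (Or.inl hα) ht
    have i2 := h1 (rv a N) M (-κ') (-κ) c2 w2' w2 hk2 (-θ) t (by linarith [hθ.2])
      (by linarith [hθ.1]) (Or.inl (by linarith)) ht
    rw [e]
    linarith

end Pool.Agent.E8helper8.PS
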